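import Mathlib

namespace Pool.Agent.Results.MP_39aace_co.PolylogLowerBound

/-- The vertices of the auxiliary digraph: a colour, a list of `k` colours, a `k × k` array
of colours (all colours from `Fin M`). -/
abbrev Vert (k M : ℕ) : Type := Fin M × (Fin k → Fin M) × (Fin k → Fin k → Fin M)

/-- `Arc s u`: the colour of `s` is in the first memory of `u`, the first memory of `s` is
contained in the second memory of `u`, and the colour of `u` occurs in no memory of `s`. -/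
def Arc {k M : ℕ} (s u : Vert k M) : Prop :=
  (∃ i, u.2.1 i = s.1) ∧ (∀ j, ∃ i i', u.2.2 i i' = s.2.1 j) ∧
    (∀ j, s.2.1 j ≠ u.1) ∧ (∀ i j, s.2.2 i j ≠ u.1)

lemma arc_irrefl {k M : ℕ} (s : Vert k M) : ¬ Arc s s := by
  rintro ⟨⟨i, hi⟩, _, h, _⟩
  exact h i hi

lemma arc_no_two {k M : ℕ} (s u : Vert k M) : ¬ (Arc s u ∧ Arc u s) := by
  rintro ⟨⟨⟨i, hi⟩, _, _, _⟩, ⟨_, _, h, _⟩⟩
  exact h i hi

lemma arc_no_three {k M : ℕ} (s u w : Vert k M) : ¬ (Arc s u ∧ Arc u w ∧ Arc w s) := by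
  rintro ⟨⟨⟨i, hi⟩, _, _, _⟩, ⟨_, h2, _, _⟩, ⟨_, _, _, h4⟩⟩
  obtain ⟨a, b, hab⟩ := h2 i
  exact h4 a b (hab.trans hi)

/-- Every `k` vertices have a common out-neighbour. -/
lemma exists_common {k M : ℕ} (hM : k * k + k * (k * k) < M) (s : Fin k → Vert k M) :
    ∃ u : Vert k M, ∀ i, Arc (s i) u := by
  classical
  let F : Finset (Fin M) :=
    (Finset.univ.image fun p : Fin k × Fin k => (s p.1).2.1 p.2) ∪
    (Finset.univ.image fun p : Fin k × (Fin k × Fin k) => (s p.1).2.2 p.2.1 p.2.2)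
  have hF : F.card < M := by
    refine lt_of_le_of_lt (Finset.card_union_le _ _) (lt_of_le_of_lt ?_ hM)
    refine add_le_add (Finset.card_image_le.trans ?_) (Finset.card_image_le.trans ?_)
    · simp
    · simp
  have hne : ∃ c : Fin M, c ∉ F := by
    by_contra hcon
    push Not at hcon
    have h1 : F = Finset.univ := Finset.eq_univ_iff_forall.mpr hcon
    rw [h1, Finset.card_univ, Fintype.card_fin] at hF
    exact lt_irrefl _ hF
  obtain ⟨c, hc⟩ := hne
  refine ⟨(c, fun i => (s i).1, fun i j => (s i).2.1 j), fun i => ⟨⟨i, rfl⟩, fun j => ⟨i, j, rfl⟩,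
    fun j hj => hc ?_, fun a b hab => hc ?_⟩⟩
  · exact Finset.mem_union_left _ (Finset.mem_image.mpr ⟨(i, j), Finset.mem_univ _, hj⟩)
  · exact Finset.mem_union_right _ (Finset.mem_image.mpr ⟨(i, (a, b)), Finset.mem_univ _, hab⟩)

/-- A relation without cycles of length `1, 2, 3`: each triple contains a sink. -/
lemma exists_sink {V : Type*} (R : V → V → Prop) (h1 : ∀ x, ¬ R x x)
    (h2 : ∀ x y, ¬ (R x y ∧ R y x)) (h3 : ∀ x y z, ¬ (R x y ∧ R y z ∧ R z x))
    (E : Finset V) (hE : E.card = 3) : ∃ x ∈ E, ∀ y ∈ E, ¬ R x y := by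
  classical
  obtain ⟨a, b, c, hab, hac, hbc, rfl⟩ := Finset.card_eq_three.mp hE
  have A1 := h1 a
  have A2 := h1 b
  have A3 := h1 c
  have B1 := h2 a b
  have B2 := h2 a c
  have B3 := h2 b c
  have C1 := h3 a b c
  have C2 := h3 a c b
  simp only [Finset.mem_insert, Finset.mem_singleton, exists_eq_or_imp, exists_eq_left,
    forall_eq_or_imp, forall_eq]
  tauto

/-- The size of the construction. -/
def size (k : ℕ) : ℕ := (k ^ 3 + k ^ 2 + 1) ^ (1 + k + k ^ 2)

lemma card_vert (k : ℕ) : Fintype.card (Vert k (k ^ 3 + k ^ 2 + 1)) = size k := by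
  simp only [Vert, Fintype.card_prod, Fintype.card_fin, Fintype.card_pi, Finset.prod_const,
    Finset.card_univ, size]
  ring

/-- For every `n ≥ size k` there is an orientation of `H(n,3)` all of whose directed
1-dominating sets have more than `k` elements. -/
lemma exists_orientation (k n : ℕ) (hn : size k ≤ n) :
    ∃ D : (∀ E : Finset (Fin n), E.card = 3 → (Fin 3 ≃ E)),
      ∀ S : Finset (Fin n),
        (∀ u : Fin n, u ∉ S → ∃ (E : Finset (Fin n)) (hE : E.card = 3),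
          u ∈ E ∧ ((D E hE 0 : E) : Fin n) ∈ S) → k < S.card := by
  classical
  set M := k ^ 3 + k ^ 2 + 1 with hM
  have hMpos : 0 < M := by omega
  have : Nonempty (Fin M) := ⟨⟨0, hMpos⟩⟩
  have hcard : Fintype.card (Vert k M) ≤ Fintype.card (Fin n) := by
    rw [card_vert, Fintype.card_fin]; exact hn
  obtain ⟨g⟩ := Function.Embedding.nonempty_of_card_le hcard
  let f : Fin n → Vert k M := Function.invFun g
  have hf : ∀ v, f (g v) = v := fun v => Function.leftInverse_invFun g.injective v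
  let R : Fin n → Fin n → Prop := fun x y => Arc (f x) (f y)
  have hsink : ∀ E : Finset (Fin n), E.card = 3 → ∃ x ∈ E, ∀ y ∈ E, ¬ R x y := fun E hE =>
    exists_sink R (fun x => arc_irrefl _) (fun x y => arc_no_two _ _)
      (fun x y z => arc_no_three _ _ _) E hE
  choose x hxE hx using hsink
  refine ⟨fun E hE => (Equiv.swap 0 (Finset.equivFinOfCardEq hE ⟨x E hE, hxE E hE⟩)).trans
    (Finset.equivFinOfCardEq hE).symm, fun S hS => ?_⟩
  by_contra hk
  push Not at hk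
  -- enumerate `S`
  have hs : ∃ s : Fin k → Vert k M, ∀ y ∈ S, ∃ i, s i = f y := by
    rcases S.eq_empty_or_nonempty with h0 | ⟨y0, hy0⟩
    · refine ⟨fun _ => f (g (Classical.arbitrary _)), ?_⟩
      intro y hy
      rw [h0] at hy
      exact absurd hy (Finset.notMem_empty _)
    · have hkpos : 0 < k := lt_of_lt_of_le (Finset.card_pos.mpr ⟨y0, hy0⟩) hk
      let e := S.equivFin
      refine ⟨fun i => if h : (i : ℕ) < S.card then f (e.symm ⟨i, h⟩) else f y0, ?_⟩
      intro y hy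
      have hlt : ((e ⟨y, hy⟩ : Fin S.card) : ℕ) < k := lt_of_lt_of_le (e ⟨y, hy⟩).2 hk
      refine ⟨⟨e ⟨y, hy⟩, hlt⟩, ?_⟩
      simp
  obtain ⟨s, hs⟩ := hs
  obtain ⟨u, hu⟩ := exists_common (k := k) (M := M) (by rw [hM]; ring_nf; omega) s
  have huS : g u ∉ S := by
    intro hmem
    obtain ⟨i, hi⟩ := hs _ hmem
    have h1 := hu i
    rw [hi, hf] at h1
    exact arc_irrefl _ h1
  obtain ⟨E, hE, huE, hD⟩ := hS (g u) huS
  have hfirst : (((Equiv.swap 0 (Finset.equivFinOfCardEq hE ⟨x E hE, hxE E hE⟩)).trans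
      (Finset.equivFinOfCardEq hE).symm) 0 : E) = ⟨x E hE, hxE E hE⟩ := by
    simp
  rw [hfirst] at hD
  obtain ⟨i, hi⟩ := hs _ hD
  have h2 := hu i
  rw [hi] at h2
  apply hx E hE (g u) huE
  change Arc (f (x E hE)) (f (g u))
  rw [hf]
  exact h2

lemma log_size_le (ε : ℝ) (hε : 0 < ε) (k : ℕ) (hk : 1 ≤ k) :
    Real.log (size k) ≤ (3 * (Real.log 3 + 3 * (1 / ε))) * (k : ℝ) ^ (2 + ε) := by
  have hk' : (1 : ℝ) ≤ k := by exact_mod_cast hk
  have hk0 : (0 : ℝ) < k := by linarith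
  have h1 : (size k : ℝ) = ((k : ℝ) ^ 3 + k ^ 2 + 1) ^ (1 + k + k ^ 2) := by
    simp [size]
  have hlog : Real.log ((k : ℝ) ^ 3 + k ^ 2 + 1) ≤ (Real.log 3 + 3 * (1 / ε)) * (k : ℝ) ^ ε := by
    have h2 : (k : ℝ) ^ 3 + k ^ 2 + 1 ≤ 3 * (k : ℝ) ^ 3 := by
      have h3 : (1 : ℝ) ≤ (k : ℝ) ^ 3 := one_le_pow₀ hk'
      have h4 : (k : ℝ) ^ 2 ≤ (k : ℝ) ^ 3 := pow_le_pow_right₀ hk' (by norm_num)
      linarith
    have h5 : Real.log ((k : ℝ) ^ 3 + k ^ 2 + 1) ≤ Real.log (3 * (k : ℝ) ^ 3) :=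
      Real.log_le_log (by positivity) h2
    have h6 : Real.log (3 * (k : ℝ) ^ 3) = Real.log 3 + 3 * Real.log k := by
      rw [Real.log_mul (by norm_num) (by positivity), Real.log_pow]
      norm_num
    have h7 : Real.log (k : ℝ) ≤ (k : ℝ) ^ ε / ε := Real.log_le_rpow_div hk0.le hε
    have h8 : (1 : ℝ) ≤ (k : ℝ) ^ ε := Real.one_le_rpow hk' hε.le
    have h9 : 0 ≤ Real.log 3 := Real.log_nonneg (by norm_num)
    calc Real.log ((k : ℝ) ^ 3 + k ^ 2 + 1) ≤ Real.log 3 + 3 * Real.log k := by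
          rw [← h6]; exact h5
      _ ≤ Real.log 3 * (k : ℝ) ^ ε + 3 * ((k : ℝ) ^ ε / ε) := by
          have := mul_le_mul_of_nonneg_left h8 h9
          linarith
      _ = (Real.log 3 + 3 * (1 / ε)) * (k : ℝ) ^ ε := by ring
  have hexp : ((1 + k + k ^ 2 : ℕ) : ℝ) ≤ 3 * (k : ℝ) ^ 2 := by
    push_cast
    nlinarith
  have hlog0 : 0 ≤ Real.log ((k : ℝ) ^ 3 + k ^ 2 + 1) :=
    Real.log_nonneg (by have : (0 : ℝ) ≤ (k : ℝ) ^ 3 + k ^ 2 := by positivity
                        linarith)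
  rw [h1, Real.log_pow]
  calc ((1 + k + k ^ 2 : ℕ) : ℝ) * Real.log ((k : ℝ) ^ 3 + k ^ 2 + 1)
      ≤ (3 * (k : ℝ) ^ 2) * ((Real.log 3 + 3 * (1 / ε)) * (k : ℝ) ^ ε) :=
        mul_le_mul hexp hlog hlog0 (by positivity)
    _ = (3 * (Real.log 3 + 3 * (1 / ε))) * ((k : ℝ) ^ (2 : ℝ) * (k : ℝ) ^ ε) := by
        rw [Real.rpow_two]; ring
    _ = (3 * (Real.log 3 + 3 * (1 / ε))) * (k : ℝ) ^ (2 + ε) := by
        rw [Real.rpow_add hk0]

lemma lt_size (k : ℕ) : k < size k := by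
  have h1 : k ^ 3 + k ^ 2 + 1 ≤ size k := by
    unfold size
    exact Nat.le_self_pow (by omega) _
  have h2 : k ≤ k ^ 2 := Nat.le_self_pow (by norm_num) _
  omega

/-- For every exponent `α < 1/2` there is `c > 0` such that for all `n ≥ 3` the complete
3-uniform hypergraph on `n` vertices has an orientation (a linear order on every edge) in
which every directed 1-dominating set has at least `c (log n) ^ α` elements. -/
theorem result (α : ℝ) (hα0 : 0 < α) (hα : α < 1 / 2) :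
    ∃ c : ℝ, 0 < c ∧ ∀ n : ℕ, 3 ≤ n →
      ∃ D : (∀ E : Finset (Fin n), E.card = 3 → (Fin 3 ≃ E)),
        ∀ S : Finset (Fin n),
          (∀ u : Fin n, u ∉ S → ∃ (E : Finset (Fin n)) (hE : E.card = 3),
            u ∈ E ∧ ((D E hE 0 : E) : Fin n) ∈ S) →
          c * (Real.log n) ^ α ≤ S.card := by
  set ε : ℝ := 1 / α - 2 with hεdef
  have hε : 0 < ε := by
    have : 2 < 1 / α := by
      rw [lt_div_iff₀ hα0]; linarith
    linarith
  set C : ℝ := 3 * (Real.log 3 + 3 * (1 / ε)) with hC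
  have hCpos : 0 < C := by
    have : 0 < Real.log 3 := Real.log_pos (by norm_num)
    positivity
  refine ⟨(C ^ α)⁻¹, by positivity, fun n hn => ?_⟩
  have hex : ∃ k, n < size k := ⟨n, lt_size n⟩
  classical
  obtain ⟨k, hk⟩ : ∃ k, Nat.find hex = k + 1 := by
    have : Nat.find hex ≠ 0 := by
      intro h0
      have h1 := Nat.find_spec hex
      rw [h0] at h1
      simp [size] at h1
      omega
    exact Nat.exists_eq_succ_of_ne_zero this
  have hlow : size k ≤ n := by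
    have := Nat.find_min hex (m := k) (by omega)
    omega
  have hup : n < size (k + 1) := by
    have := Nat.find_spec hex
    rwa [hk] at this
  obtain ⟨D, hD⟩ := exists_orientation k n hlow
  refine ⟨D, fun S hS => ?_⟩
  have hS' : ((k + 1 : ℕ) : ℝ) ≤ S.card := by
    exact_mod_cast hD S hS
  refine le_trans ?_ hS'
  have hk1 : (0 : ℝ) < ((k + 1 : ℕ) : ℝ) := by positivity
  have hlogn0 : 0 ≤ Real.log n := Real.log_nonneg (by exact_mod_cast (by omega : 1 ≤ n))
  have hlog : Real.log n ≤ C * ((k + 1 : ℕ) : ℝ) ^ (2 + ε) := by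
    refine le_trans (Real.log_le_log (by exact_mod_cast (by omega : 0 < n)) ?_)
      (log_size_le ε hε (k + 1) (by omega))
    exact_mod_cast hup.le
  have hpow : (Real.log n) ^ α ≤ C ^ α * ((k + 1 : ℕ) : ℝ) := by
    calc (Real.log n) ^ α ≤ (C * ((k + 1 : ℕ) : ℝ) ^ (2 + ε)) ^ α :=
          Real.rpow_le_rpow hlogn0 hlog hα0.le
      _ = C ^ α * (((k + 1 : ℕ) : ℝ) ^ (2 + ε)) ^ α := by
          rw [Real.mul_rpow hCpos.le (by positivity)]
      _ = C ^ α * ((k + 1 : ℕ) : ℝ) := by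
          rw [← Real.rpow_mul hk1.le]
          have : (2 + ε) * α = 1 := by
            rw [hεdef]; field_simp; ring
          rw [this, Real.rpow_one]
  have hCα : 0 < C ^ α := by positivity
  rw [inv_mul_le_iff₀ hCα]
  exact hpow

end Pool.Agent.Results.MP_39aace_co.PolylogLowerBound
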